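import Pool.Agent.H32.SAB.TargetsT

/-!
# Row PCYC of the board `qcf_modules`: cyclic vectors
-/

set_option autoImplicit false

open Polynomial Matrix Pool.Agent.H32.SAB

namespace Pool.Agent.H93.SAB

theorem pf_CYC : T_CYC := by
  intro F _ n M hM v hv hdet
  obtain ⟨c, hc, hN⟩ := Matrix.exists_mulVec_eq_zero_iff.2 hdet
  set g : F[X] := ∑ j : Fin n, C (c j) * X ^ (j : ℕ) with hg
  have hcoef : ∀ j : Fin n, g.coeff j = c j := by
    intro j
    rw [hg, finsetSum_coeff, Finset.sum_eq_single j]
    · simp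
    · intro i _ hi
      rw [coeff_C_mul, coeff_X_pow, if_neg, mul_zero]
      intro h
      exact hi (Fin.ext h.symm)
    · intro h; exact absurd (Finset.mem_univ j) h
  have hg0 : g ≠ 0 := by
    intro h
    apply hc
    funext j
    rw [← hcoef j, h]
    simp
  have hdeg : g.degree < n := by
    rw [hg]
    refine (degree_sum_le _ _).trans_lt ?_
    refine (Finset.sup_lt_iff (α := WithBot ℕ) (WithBot.bot_lt_coe n)).2 ?_
    intro j _
    refine (degree_C_mul_X_pow_le _ _).trans_lt ?_
    exact Nat.cast_withBot _ ▸ WithBot.coe_lt_coe.2 j.2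
  have hp : M.charpoly.degree = n := by
    rw [Matrix.charpoly_degree_eq_dim]
    simp
  have hnd : ¬ M.charpoly ∣ g := by
    intro h
    have h1 := degree_le_of_dvd h hg0
    rw [hp] at h1
    exact absurd hdeg (not_lt.2 h1)
  have hcop : IsCoprime M.charpoly g := (hM.coprime_iff_not_dvd).2 hnd
  obtain ⟨w, u, huw⟩ := hcop
  have hgv : (aeval M g) *ᵥ v = 0 := by
    rw [← hN, hg, map_sum]
    funext i
    rw [Matrix.mulVec, Matrix.mulVec, dotProduct, dotProduct]
    simp only [Matrix.sum_apply, Finset.sum_mul]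
    rw [Finset.sum_comm]
    refine Finset.sum_congr rfl fun j _ => ?_
    rw [Matrix.of_apply, Matrix.mulVec, dotProduct, Finset.sum_mul]
    refine Finset.sum_congr rfl fun l _ => ?_
    rw [map_mul, aeval_C, map_pow, aeval_X, Algebra.algebraMap_eq_smul_one, Matrix.smul_mul,
      Matrix.one_mul, Matrix.smul_apply, smul_eq_mul]
    ring
  have h1 : v = (aeval M (w * M.charpoly + u * g)) *ᵥ v := by
    rw [huw, map_one, Matrix.one_mulVec]
  apply hv
  rw [h1, map_add, map_mul, map_mul, Matrix.aeval_self_charpoly, mul_zero, zero_add,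
    ← Matrix.mulVec_mulVec, hgv, Matrix.mulVec_zero]

end Pool.Agent.H93.SAB
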